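import Pool.Agent.helper78.WB.SpecIII

/-!
# Project wb (MP_bb5cc8_nt), Part III, row GC2

Sorting the points by a good chart and by the class in that chart (a zero of the reduction of the
form), at most `3 d ℓ` cells, and `CELL2` for each cell.
-/

set_option autoImplicit false

namespace Pool.Agent.WB

open MvPolynomial

namespace H40GC2

theorem evs {K : Type} [CommRing K] (f : MvPolynomial (Fin 3) K) (d : ℕ)
    (hf : f.IsHomogeneous d) (a : K) (v : Fin 3 → K) :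
    eval (fun i => a * v i) f = a ^ d * eval v f := by
  rw [eval_eq', eval_eq', Finset.mul_sum]
  apply Finset.sum_congr rfl
  intro μ hμ
  have h : μ.degree = d := by
    rw [Finsupp.degree_eq_weight_one]
    exact hf (mem_support_iff.mp hμ)
  have h2 : ∑ i, μ i = d := by
    rw [← h, Finsupp.degree_eq_sum]
  have h3 : ∏ i, (a * v i) ^ μ i = a ^ d * ∏ i, v i ^ μ i := by
    rw [← h2, ← Finset.prod_pow_eq_pow_sum, ← Finset.prod_mul_distrib]
    apply Finset.prod_congr rfl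
    intro i _
    rw [mul_pow]
  rw [h3]
  ring

theorem eval_red (ℓ : ℕ) (p : MvPolynomial (Fin 3) ℤ) (ζ : V3) :
    eval (redv ℓ ζ) (redp ℓ p) = ((eval ζ p : ℤ) : ZMod ℓ) := by
  unfold redp
  have h := eval_map (Int.castRingHom (ZMod ℓ)) (redv ℓ ζ) p
  rw [h]
  have h2 := eval₂_comp_left (Int.castRingHom (ZMod ℓ)) (RingHom.id ℤ) ζ p
  have h3 : (Int.castRingHom (ZMod ℓ)) ∘ ζ = redv ℓ ζ := by
    funext i
    rfl
  rw [h3, RingHom.comp_id] at h2
  rw [← h2]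
  rfl

end H40GC2

open H40GC2 in
theorem GC2 (h1 : CELL2_stmt) (h2 : CNTZ_stmt) (h3 : PNZ_stmt) : GC2_stmt := by
  classical
  intro ℓ hℓ N X₀ d n p hp hpd hd hdeg hn hX hN hineq C hNP hC
  have hj : ∀ ζ : V3, ∃ j : Fin 3, ζ ∈ C → (¬ (ℓ : ℤ) ∣ ζ j ∧
      ¬ ordGE 2 (loc j (redv ℓ ζ) (redp ℓ p))) := by
    intro ζ
    by_cases hζ : ζ ∈ C
    · obtain ⟨_, _, _, _, j, hj⟩ := hC ζ hζ
      exact ⟨j, fun _ => hj⟩
    · exact ⟨0, fun h => absurd h hζ⟩
  choose J hJ using hj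
  let cl : V3 → (Fin 2 → ZMod ℓ) := fun ζ t => redv ℓ ζ ((J ζ).succAbove t) / redv ℓ ζ (J ζ)
  let Φ : V3 → Fin 3 × (Fin 2 → ZMod ℓ) := fun ζ => (J ζ, cl ζ)
  have hne : ∀ ζ ∈ C, redv ℓ ζ (J ζ) ≠ 0 := by
    intro ζ hζ h0
    apply (hJ ζ hζ).1
    exact (ZMod.intCast_zmod_eq_zero_iff_dvd _ _).mp h0
  -- the vector is a multiple of its class
  have hrep : ∀ ζ ∈ C, ∀ i : Fin 3, redv ℓ ζ i =
      redv ℓ ζ (J ζ) * (Fin.insertNth (J ζ) (1 : ZMod ℓ) (cl ζ) : Fin 3 → ZMod ℓ) i := by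
    intro ζ hζ i
    rcases Fin.eq_self_or_eq_succAbove (J ζ) i with hi | ⟨t, hi⟩
    · rw [hi, Fin.insertNth_apply_same, mul_one]
    · rw [hi, Fin.insertNth_apply_succAbove]
      show _ = redv ℓ ζ (J ζ) * (redv ℓ ζ ((J ζ).succAbove t) / redv ℓ ζ (J ζ))
      rw [mul_div_cancel₀ _ (hne ζ hζ)]
  have hfd : (redp ℓ p).IsHomogeneous d := by
    unfold redp
    exact hpd.map _
  have hzero : ∀ ζ ∈ C, eval (Fin.insertNth (J ζ) (1 : ZMod ℓ) (cl ζ) : Fin 3 → ZMod ℓ)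
      (redp ℓ p) = 0 := by
    intro ζ hζ
    have e1 : redv ℓ ζ = fun i => redv ℓ ζ (J ζ) *
        (Fin.insertNth (J ζ) (1 : ZMod ℓ) (cl ζ) : Fin 3 → ZMod ℓ) i := by
      funext i
      exact hrep ζ hζ i
    have e2 := evs (redp ℓ p) d hfd (redv ℓ ζ (J ζ))
      (Fin.insertNth (J ζ) (1 : ZMod ℓ) (cl ζ) : Fin 3 → ZMod ℓ)
    rw [← e1, eval_red, (hC ζ hζ).2.2.2.1, Int.cast_zero] at e2
    rcases mul_eq_zero.mp e2.symm with h | h
    · exact absurd (pow_eq_zero_iff (by omega) |>.mp h) (hne ζ hζ)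
    · exact h
  let T : Finset (Fin 3 × (Fin 2 → ZMod ℓ)) :=
    Finset.univ.sigma (fun j : Fin 3 => Finset.univ.filter (fun c : Fin 2 → ZMod ℓ =>
      eval (Fin.insertNth j (1 : ZMod ℓ) c : Fin 3 → ZMod ℓ) (redp ℓ p) = 0)) |>.image
      (fun x => (x.1, x.2))
  have hT : T.card ≤ 3 * (d * ℓ) := by
    refine Finset.card_image_le.trans ?_
    rw [Finset.card_sigma]
    have : ∀ j ∈ (Finset.univ : Finset (Fin 3)),
        (Finset.univ.filter (fun c : Fin 2 → ZMod ℓ =>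
          eval (Fin.insertNth j (1 : ZMod ℓ) c : Fin 3 → ZMod ℓ) (redp ℓ p) = 0)).card ≤
          d * ℓ := by
      intro j _
      have h := h2 ℓ d (redp ℓ p) j hfd (h3 ℓ hℓ.out d p hp hpd (by omega))
      rw [← Set.ncard_coe_finset]
      refine le_trans (le_of_eq ?_) h
      congr 1
      ext c
      simp
    refine (Finset.sum_le_sum this).trans ?_
    simp
  have hmaps : ∀ ζ ∈ C, Φ ζ ∈ T := by
    intro ζ hζ
    refine Finset.mem_image.mpr ⟨⟨J ζ, cl ζ⟩, ?_, rfl⟩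
    rw [Finset.mem_sigma]
    exact ⟨Finset.mem_univ _, Finset.mem_filter.mpr ⟨Finset.mem_univ _, hzero ζ hζ⟩⟩
  have hfib : ∀ b ∈ T, (C.filter (fun ζ => Φ ζ = b)).card ≤ d * n := by
    intro b _
    rcases (C.filter (fun ζ => Φ ζ = b)).eq_empty_or_nonempty with he | ⟨ζ₁, hζ₁⟩
    · rw [he]
      simp
    · have hJb : ∀ ζ ∈ C.filter (fun ζ => Φ ζ = b), J ζ = b.1 ∧ cl ζ = b.2 := by
        intro ζ hζ
        have h := (Finset.mem_filter.mp hζ).2
        rw [← h]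
        exact ⟨rfl, rfl⟩
      apply h1 ℓ b.1 N X₀ d n p hp hpd hd hdeg hn hX hN hineq
      · intro ζ hζ η hη hne'
        exact hNP ζ (Finset.mem_filter.mp hζ).1 η (Finset.mem_filter.mp hη).1 hne'
      · intro ζ hζ
        have hζC := (Finset.mem_filter.mp hζ).1
        obtain ⟨a1, a2, a3, a4, _⟩ := hC ζ hζC
        refine ⟨a1, a2, a3, ?_, a4⟩
        have := (hJ ζ hζC).1
        rw [(hJb ζ hζ).1] at this
        exact this
      · intro ζ hζ η hη i i'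
        have hζC := (Finset.mem_filter.mp hζ).1
        have hηC := (Finset.mem_filter.mp hη).1
        rw [← ZMod.intCast_zmod_eq_zero_iff_dvd]
        push_cast
        have r1 := hrep ζ hζC
        have r2 := hrep η hηC
        rw [(hJb ζ hζ).1, (hJb ζ hζ).2] at r1
        rw [(hJb η hη).1, (hJb η hη).2] at r2
        show redv ℓ ζ i * redv ℓ η i' - redv ℓ ζ i' * redv ℓ η i = 0
        rw [r1 i, r1 i', r2 i, r2 i']
        ring
      · refine ⟨ζ₁, hζ₁, ?_⟩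
        have := (hJ ζ₁ (Finset.mem_filter.mp hζ₁).1).2
        rw [(hJb ζ₁ hζ₁).1] at this
        exact this
  have hfin := Finset.card_le_mul_card_image_of_maps_to hmaps (d * n) hfib
  calc C.card ≤ d * n * T.card := hfin
    _ ≤ d * n * (3 * (d * ℓ)) := Nat.mul_le_mul_left _ hT
    _ = 3 * (d * ℓ) * (d * n) := by ring

end Pool.Agent.WB
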