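import Pool.Agent.helper75.WB.SpecI

/-!
# Project wb (MP_bb5cc8_nt), Part I, row INP
-/

set_option autoImplicit false

namespace Pool.Agent.WB

open Finset

theorem INP : INP_stmt := by
  intro q q' V x y w G t τ hF
  obtain ⟨hV, -, -⟩ := hF
  refine ⟨?_, ?_⟩
  · intro ζ hζ η hη hne
    by_contra hcon
    push Not at hcon
    unfold FA at hζ hη
    rw [mem_image] at hζ hη
    obtain ⟨⟨p, s⟩, hp, rfl⟩ := hζ
    obtain ⟨⟨p₁, s₁⟩, hp₁, rfl⟩ := hη
    rw [mem_product] at hp hp₁
    obtain ⟨hpos, hpq, a, b, hab⟩ := hV p hp.1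
    obtain ⟨hpos₁, hpq₁, hcop₁⟩ := hV p₁ hp₁.1
    have h01 : x p * y p₁ = y p * x p₁ := hcon 0 1
    have h02 : x p * (w p₁ + s₁ * p₁) = (w p + s * p) * x p₁ := hcon 0 2
    have h12 : y p * (w p₁ + s₁ * p₁) = (w p + s * p) * y p₁ := hcon 1 2
    have hx1 : x p₁ = x p * (a * x p₁ + b * y p₁) := by
      calc x p₁ = x p₁ * (a * x p + b * y p) := by rw [hab, mul_one]
        _ = a * x p * x p₁ + b * (y p * x p₁) := by ring
        _ = a * x p * x p₁ + b * (x p * y p₁) := by rw [h01]
        _ = _ := by ring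
    have hy1 : y p₁ = y p * (a * x p₁ + b * y p₁) := by
      calc y p₁ = y p₁ * (a * x p + b * y p) := by rw [hab, mul_one]
        _ = a * (x p * y p₁) + b * y p * y p₁ := by ring
        _ = a * (y p * x p₁) + b * y p * y p₁ := by rw [h01]
        _ = _ := by ring
    obtain ⟨k, hk⟩ : ∃ k : ℤ, k = a * x p₁ + b * y p₁ := ⟨_, rfl⟩
    rw [← hk] at hx1 hy1
    have hpk : (p₁ : ℤ) = k * p := by
      rw [← hpq₁, ← hpq, hx1, hy1]
      ring
    have hku : IsUnit k := by
      apply hcop₁.isUnit_of_dvd' (x := k)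
      · exact ⟨x p, by rw [hx1]; ring⟩
      · exact ⟨y p, by rw [hy1]; ring⟩
    have hk1 : k = 1 := by
      rcases Int.isUnit_iff.mp hku with h | h
      · exact h
      · exfalso
        rw [h] at hpk
        have h1 : (0 : ℤ) < (p₁ : ℤ) := by exact_mod_cast hpos₁
        have h2 : (0 : ℤ) < (p : ℤ) := by exact_mod_cast hpos
        linarith
    rw [hk1, one_mul] at hpk
    have hpp : p₁ = p := by exact_mod_cast hpk
    subst hpp
    have hp0 : (p₁ : ℤ) ≠ 0 := by
      have : (0 : ℤ) < (p₁ : ℤ) := by exact_mod_cast hpos₁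
      exact this.ne'
    have hx : x p₁ * (s₁ - s) = 0 := by
      have : (x p₁ * (s₁ - s)) * (p₁ : ℤ) = 0 := by linear_combination h02
      rcases mul_eq_zero.mp this with h | h
      · exact h
      · exact absurd h hp0
    have hy : y p₁ * (s₁ - s) = 0 := by
      have : (y p₁ * (s₁ - s)) * (p₁ : ℤ) = 0 := by linear_combination h12
      rcases mul_eq_zero.mp this with h | h
      · exact h
      · exact absurd h hp0
    have hs : s₁ - s = 0 := by
      calc s₁ - s = (a * x p₁ + b * y p₁) * (s₁ - s) := by rw [hab, one_mul]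
        _ = a * (x p₁ * (s₁ - s)) + b * (y p₁ * (s₁ - s)) := by ring
        _ = 0 := by rw [hx, hy]; ring
    have hs' : s₁ = s := by linarith
    apply hne
    rw [hs']
  · unfold FA
    refine card_image_le.trans ?_
    rw [card_product, Int.card_Icc]
    apply Nat.mul_le_mul_left
    omega

end Pool.Agent.WB
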